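import Mathlib
import Pool.Agent.V11161.SeqBuild

/-! `N(x)` grows at least like `x^(2/3)` up to logarithms; in particular it is not `O(√x)`. -/

open Finset

namespace Pool.Agent.Results.MP_6d8139_co.BeatsSquareRoot

open Pool.Agent.V11161.SeqBuild

/-- There are integers `0 < a 1 < a 2 < ... < a n ≤ x` such that no three of the `n` points
`(j, a j)`, `1 ≤ j ≤ n`, of the plane lie on a common line. -/
def HasSeq (x : ℝ) (n : ℕ) : Prop :=
  ∃ a : ℕ → ℤ, (∀ j, 1 ≤ j → j ≤ n → 0 < a j ∧ (a j : ℝ) ≤ x) ∧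
    (∀ i j, 1 ≤ i → i < j → j ≤ n → a i < a j) ∧
    ∀ i j l, 1 ≤ i → i < j → j < l → l ≤ n →
      ¬ Collinear ℝ ({((i : ℝ), (a i : ℝ)), ((j : ℝ), (a j : ℝ)), ((l : ℝ), (a l : ℝ))} :
        Set (ℝ × ℝ))

/-- The function `N(x)`: the largest `n ≥ 1` for which such integers exist. -/
noncomputable def N (x : ℝ) : ℕ := sSup {n : ℕ | 1 ≤ n ∧ HasSeq x n}

theorem le_of_hasSeq {x : ℝ} {n : ℕ} (h : HasSeq x n) : n = 0 ∨ (n : ℝ) ≤ x := by
  rcases Nat.eq_zero_or_pos n with h0 | h0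
  · exact Or.inl h0
  right
  obtain ⟨a, h1, h2, -⟩ := h
  have key : ∀ j, 1 ≤ j → j ≤ n → (j : ℤ) ≤ a j := by
    intro j hj
    induction j, hj using Nat.le_induction with
    | base =>
      intro h
      have := (h1 1 le_rfl h).1
      push_cast; omega
    | succ j hj ih =>
      intro h
      have e1 := ih (by omega)
      have e2 := h2 j (j + 1) hj (by omega) h
      push_cast; omega
  have e := key n h0 le_rfl
  have e2 := (h1 n h0 le_rfl).2
  have e3 : ((n : ℤ) : ℝ) ≤ (a n : ℝ) := by exact_mod_cast e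
  push_cast at e3
  linarith

theorem bdd (x : ℝ) : BddAbove {n : ℕ | 1 ≤ n ∧ HasSeq x n} := by
  refine ⟨⌊x⌋₊, ?_⟩
  rintro n ⟨hn, h⟩
  rcases le_of_hasSeq h with h0 | h0
  · omega
  · exact Nat.le_floor h0

theorem le_N {x : ℝ} {n : ℕ} (hn : 1 ≤ n) (h : HasSeq x n) : n ≤ N x :=
  le_csSup (bdd x) ⟨hn, h⟩

theorem det_of_collinear {p q r : ℝ × ℝ} (h : Collinear ℝ ({p, q, r} : Set (ℝ × ℝ))) :
    (q.1 - p.1) * (r.2 - p.2) = (r.1 - p.1) * (q.2 - p.2) := by
  rw [collinear_iff_of_mem (p₀ := p) (by simp)] at h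
  obtain ⟨v, hv⟩ := h
  obtain ⟨s, hs⟩ := hv q (by simp)
  obtain ⟨t, ht⟩ := hv r (by simp)
  rw [hs, ht]
  simp only [vadd_eq_add, Prod.fst_add, Prod.snd_add, Prod.smul_fst, Prod.smul_snd, smul_eq_mul]
  ring

theorem hasSeq_one {x : ℝ} (hx : 1 ≤ x) : HasSeq x 1 := by
  refine ⟨fun _ => 1, ?_, ?_, ?_⟩
  · intro j _ _
    exact ⟨by norm_num, by simpa using hx⟩
  · intro i j h1 h2 h3; omega
  · intro i j l h1 h2 h3 h4; omega

/-- main construction -/
theorem hasSeq_of_large {n w : ℕ} (hn : 1 ≤ n)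
    (hw : 100 * (Real.sqrt n * (1 + Real.log n) ^ 2) ≤ w) {x : ℝ} (hx : (2 * w * n : ℝ) ≤ x) :
    HasSeq x n := by
  obtain ⟨c, hc⟩ := exists_offsets hn hw
  have hlog : 0 ≤ Real.log n := Real.log_nonneg (by exact_mod_cast hn)
  have hs : 1 ≤ Real.sqrt n := by
    rw [← Real.sqrt_one]; exact Real.sqrt_le_sqrt (by exact_mod_cast hn)
  have hw1 : 1 ≤ w := by
    have : (0 : ℝ) < w := by
      have : 0 < 100 * (Real.sqrt n * (1 + Real.log n) ^ 2) := by positivity
      linarith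
    exact_mod_cast this
  set c' : ℕ → ℕ := fun j => if h : j < n then (c ⟨j, h⟩ : ℕ) else 0 with hc'
  have hc'lt : ∀ j, c' j < w := by
    intro j
    simp only [hc']
    split_ifs
    · exact Fin.is_lt _
    · omega
  refine ⟨fun j => 1 + (F n w (j - 1) : ℤ) + (c' (j - 1) : ℤ), ?_, ?_, ?_⟩
  · intro j hj hjn
    constructor
    · positivity
    · have hF : (F n w (j - 1) : ℝ) ≤ w * (n - 1) + w * (n - 1) := by
        unfold F
        push_cast
        have hjr : ((j - 1 : ℕ) : ℝ) ≤ (n : ℝ) - 1 := by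
          rw [Nat.cast_sub hj]
          have : (j : ℝ) ≤ n := by exact_mod_cast hjn
          push_cast; linarith
        have hj0 : (0 : ℝ) ≤ ((j - 1 : ℕ) : ℝ) := Nat.cast_nonneg _
        have hn0 : (0 : ℝ) < n := by exact_mod_cast hn
        have e1 : (w : ℝ) * ((j - 1 : ℕ) : ℝ) ≤ w * (n - 1) :=
          mul_le_mul_of_nonneg_left hjr (Nat.cast_nonneg _)
        have e2 : ((w * (j - 1) * (j - 1) / n : ℕ) : ℝ) ≤ w * (n - 1) := by
          refine Nat.cast_div_le.trans ?_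
          rw [div_le_iff₀ hn0]
          push_cast
          calc (w : ℝ) * ((j - 1 : ℕ) : ℝ) * ((j - 1 : ℕ) : ℝ) ≤ (w * (n - 1)) * ((n : ℝ) - 1) := by
                apply mul_le_mul e1 hjr hj0
                exact mul_nonneg (Nat.cast_nonneg _) (by linarith)
            _ ≤ (w * (n - 1)) * n := by
                apply mul_le_mul_of_nonneg_left (by linarith)
                exact mul_nonneg (Nat.cast_nonneg _) (by linarith)
            _ = w * (n - 1) * n := by ring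
        linarith
      have hcr : (c' (j - 1) : ℝ) + 1 ≤ w := by exact_mod_cast hc'lt (j - 1)
      push_cast
      have hwr : (1 : ℝ) ≤ w := by exact_mod_cast hw1
      nlinarith
  · intro i j hi hij hjn
    have h1 : F n w (i - 1) + w ≤ F n w (j - 1) := by
      unfold F
      have e1 : w * (i - 1) + w ≤ w * (j - 1) := by
        calc w * (i - 1) + w = w * (i - 1 + 1) := by ring
          _ ≤ w * (j - 1) := Nat.mul_le_mul_left _ (by omega)
      have e2 : w * (i - 1) * (i - 1) / n ≤ w * (j - 1) * (j - 1) / n := by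
        apply Nat.div_le_div_right
        have e3 : i - 1 ≤ j - 1 := by omega
        exact Nat.mul_le_mul (Nat.mul_le_mul_left _ e3) e3
      omega
    have h2 := hc'lt (i - 1)
    simp only
    have h3 : (F n w (i - 1) : ℤ) + w ≤ F n w (j - 1) := by exact_mod_cast h1
    have h4 : (c' (i - 1) : ℤ) < w := by exact_mod_cast h2
    have h5 : (0 : ℤ) ≤ (c' (j - 1) : ℤ) := Int.natCast_nonneg _
    linarith
  · intro i j l hi hij hjl hln hcol
    have hdet := det_of_collinear hcol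
    simp only at hdet
    have hi' : i - 1 < n := by omega
    have hj' : j - 1 < n := by omega
    have hl' : l - 1 < n := by omega
    apply hc ⟨i - 1, hi'⟩ ⟨j - 1, hj'⟩ ⟨l - 1, hl'⟩
    · intro h; rw [Fin.mk.injEq] at h; omega
    · intro h; rw [Fin.mk.injEq] at h; omega
    · intro h; rw [Fin.mk.injEq] at h; omega
    unfold C Y
    simp only
    have ci : c' (i - 1) = (c ⟨i - 1, hi'⟩ : ℕ) := by simp only [hc']; rw [dif_pos hi']
    have cj : c' (j - 1) = (c ⟨j - 1, hj'⟩ : ℕ) := by simp only [hc']; rw [dif_pos hj']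
    have cl : c' (l - 1) = (c ⟨l - 1, hl'⟩ : ℕ) := by simp only [hc']; rw [dif_pos hl']
    rw [ci, cj, cl] at hdet
    have hi1 : ((i - 1 : ℕ) : ℤ) = i - 1 := by push_cast [Nat.cast_sub hi]; ring
    have hj1 : ((j - 1 : ℕ) : ℤ) = j - 1 := by
      push_cast [Nat.cast_sub (show 1 ≤ j by omega)]; ring
    have hl1 : ((l - 1 : ℕ) : ℤ) = l - 1 := by
      push_cast [Nat.cast_sub (show 1 ≤ l by omega)]; ring
    rw [hi1, hj1, hl1]
    have goalR : (((j : ℤ) - 1 - (i - 1)) * ((F n w (l - 1) : ℤ) + (c ⟨l - 1, hl'⟩ : ℕ) -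
        ((F n w (i - 1) : ℤ) + (c ⟨i - 1, hi'⟩ : ℕ))) : ℤ) =
        ((l : ℤ) - 1 - (i - 1)) * ((F n w (j - 1) : ℤ) + (c ⟨j - 1, hj'⟩ : ℕ) -
        ((F n w (i - 1) : ℤ) + (c ⟨i - 1, hi'⟩ : ℕ))) := by
      have : (((j : ℝ) - 1 - (i - 1)) * ((F n w (l - 1) : ℝ) + (c ⟨l - 1, hl'⟩ : ℕ) -
        ((F n w (i - 1) : ℝ) + (c ⟨i - 1, hi'⟩ : ℕ))) : ℝ) =
        ((l : ℝ) - 1 - (i - 1)) * ((F n w (j - 1) : ℝ) + (c ⟨j - 1, hj'⟩ : ℕ) -
        ((F n w (i - 1) : ℝ) + (c ⟨i - 1, hi'⟩ : ℕ))) := by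
        push_cast at hdet
        linarith
      exact_mod_cast this
    exact goalR

theorem hasSeq_of_real {n : ℕ} (hn : 1 ≤ n) {x : ℝ}
    (hx : 202 * (n * Real.sqrt n * (1 + Real.log n) ^ 2) ≤ x) : HasSeq x n := by
  have hlog : 0 ≤ Real.log n := Real.log_nonneg (by exact_mod_cast hn)
  have hs : 1 ≤ Real.sqrt n := by
    rw [← Real.sqrt_one]; exact Real.sqrt_le_sqrt (by exact_mod_cast hn)
  have hn1 : (1 : ℝ) ≤ n := by exact_mod_cast hn
  set y : ℝ := Real.sqrt n * (1 + Real.log n) ^ 2 with hy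
  have hy1 : 1 ≤ y := by
    rw [hy]
    have : 1 ≤ (1 + Real.log n) ^ 2 := one_le_pow₀ (by linarith)
    calc (1 : ℝ) = 1 * 1 := by ring
      _ ≤ _ := mul_le_mul hs this (by norm_num) (by linarith)
  apply hasSeq_of_large hn (w := ⌈100 * y⌉₊) (Nat.le_ceil _)
  have h1 : ((⌈100 * y⌉₊ : ℕ) : ℝ) ≤ 101 * y := by
    have := (Nat.ceil_lt_add_one (show 0 ≤ 100 * y by positivity)).le
    linarith
  calc (2 * (⌈100 * y⌉₊ : ℕ) * n : ℝ) ≤ 2 * (101 * y) * n := by gcongr
    _ = 202 * (n * Real.sqrt n * (1 + Real.log n) ^ 2) := by rw [hy]; ring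
    _ ≤ x := hx

theorem lower {x : ℝ} (hx : 1 ≤ x) :
    (1 / 80 : ℝ) * (x / (1 + Real.log x) ^ 2) ^ ((2 : ℝ) / 3) ≤ N x := by
  have hlx : 0 ≤ Real.log x := Real.log_nonneg hx
  set L := 1 + Real.log x with hL
  have hL1 : 1 ≤ L := by linarith
  set z : ℝ := (x / L ^ 2) ^ ((2 : ℝ) / 3) with hz
  have hxL : 0 < x / L ^ 2 := by positivity
  have hz0 : 0 < z := Real.rpow_pos_of_pos hxL _
  have hN1 : 1 ≤ N x := le_N le_rfl (hasSeq_one hx)
  have hN1' : (1 : ℝ) ≤ N x := by exact_mod_cast hN1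
  by_cases hbig : (1 / 40 : ℝ) * z < 1
  · linarith
  push Not at hbig
  set n := ⌊(1 / 40 : ℝ) * z⌋₊ with hn
  have hn1 : 1 ≤ n := by rw [hn]; exact Nat.le_floor (by simpa using hbig)
  have hnle : (n : ℝ) ≤ (1 / 40 : ℝ) * z := Nat.floor_le (by positivity)
  have hnge : (1 / 80 : ℝ) * z ≤ n := by
    have := Nat.lt_floor_add_one ((1 / 40 : ℝ) * z)
    rw [← hn] at this
    have h1 : (1 : ℝ) ≤ n := by exact_mod_cast hn1
    linarith
  refine hnge.trans ?_
  have hseq : HasSeq x n := by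
    apply hasSeq_of_real hn1
    have hzz : z * Real.sqrt z = x / L ^ 2 := by
      have h2 : z * Real.sqrt z = z ^ ((3 : ℝ) / 2) := by
        rw [Real.sqrt_eq_rpow]
        nth_rewrite 1 [← Real.rpow_one z]
        rw [← Real.rpow_add hz0]
        norm_num
      rw [h2, hz, ← Real.rpow_mul hxL.le]
      norm_num
    have hnz : (n : ℝ) * Real.sqrt n ≤ (1 / 40) * z * Real.sqrt ((1 / 40) * z) := by
      apply mul_le_mul hnle (Real.sqrt_le_sqrt hnle) (Real.sqrt_nonneg _) (by positivity)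
    have hs40 : Real.sqrt ((1 / 40) * z) ≤ (4 / 25) * Real.sqrt z := by
      rw [Real.sqrt_mul (by norm_num)]
      apply mul_le_mul_of_nonneg_right _ (Real.sqrt_nonneg _)
      rw [Real.sqrt_le_left (by norm_num)]
      norm_num
    have hnx : (n : ℝ) ≤ x := by
      have h3 : z ≤ x := by
        calc z ≤ x ^ ((2 : ℝ) / 3) := by
              apply Real.rpow_le_rpow hxL.le _ (by norm_num)
              apply div_le_self (by linarith)
              exact one_le_pow₀ hL1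
          _ ≤ x ^ (1 : ℝ) := Real.rpow_le_rpow_of_exponent_le hx (by norm_num)
          _ = x := Real.rpow_one x
      linarith
    have hlogn : Real.log n ≤ Real.log x :=
      Real.log_le_log (by exact_mod_cast hn1) hnx
    have hlogn0 : 0 ≤ Real.log n := Real.log_nonneg (by exact_mod_cast hn1)
    have hLn : (1 + Real.log n) ^ 2 ≤ L ^ 2 := by
      apply pow_le_pow_left₀ (by linarith)
      linarith
    calc 202 * (n * Real.sqrt n * (1 + Real.log n) ^ 2)
        ≤ 202 * ((1 / 40) * z * ((4 / 25) * Real.sqrt z) * L ^ 2) := by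
          apply mul_le_mul_of_nonneg_left _ (by norm_num)
          apply mul_le_mul _ hLn (by positivity) (by positivity)
          refine hnz.trans ?_
          apply mul_le_mul_of_nonneg_left hs40 (by positivity)
      _ = (202 / 250) * ((z * Real.sqrt z) * L ^ 2) := by ring
      _ = (202 / 250) * x := by rw [hzz]; field_simp
      _ ≤ x := by linarith
  exact_mod_cast le_N hn1 hseq

theorem not_sqrt : ¬ ∃ K : ℝ, ∀ x : ℝ, 1 ≤ x → (N x : ℝ) ≤ K * Real.sqrt x := by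
  rintro ⟨K, hK⟩
  set M : ℝ := 87120 * |K| + 2 with hM
  have hM1 : 1 ≤ M := by have := abs_nonneg K; linarith
  have hM0 : 0 < M := by linarith
  set x : ℝ := M ^ 8 with hx
  have hx1 : 1 ≤ x := one_le_pow₀ hM1
  have hx0 : 0 < x := by linarith
  have h1 := lower hx1
  have h2 := hK x hx1
  have hs : Real.sqrt x = M ^ 4 := by
    rw [hx, show M ^ 8 = (M ^ 4) ^ 2 by ring]
    exact Real.sqrt_sq (by positivity)
  rw [hs] at h2
  have hlx : 0 ≤ Real.log x := Real.log_nonneg hx1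
  have hu1 : 1 ≤ x ^ ((1 : ℝ) / 32) := Real.one_le_rpow hx1 (by norm_num)
  have hl : 1 + Real.log x ≤ 33 * x ^ ((1 : ℝ) / 32) := by
    have := Real.log_le_rpow_div hx0.le (show (0 : ℝ) < 1 / 32 by norm_num)
    have e : x ^ ((1 : ℝ) / 32) / (1 / 32) = 32 * x ^ ((1 : ℝ) / 32) := by ring
    rw [e] at this
    linarith
  have hl2 : (1 + Real.log x) ^ 2 ≤ 1089 * x ^ ((1 : ℝ) / 16) := by
    calc (1 + Real.log x) ^ 2 ≤ (33 * x ^ ((1 : ℝ) / 32)) ^ 2 :=
          pow_le_pow_left₀ (by linarith) hl 2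
      _ = 1089 * (x ^ ((1 : ℝ) / 32)) ^ 2 := by ring
      _ = 1089 * x ^ ((1 : ℝ) / 16) := by
          rw [← Real.rpow_natCast (x ^ ((1 : ℝ) / 32)) 2, ← Real.rpow_mul hx0.le]
          norm_num
  have h3 : (1 / 1089 : ℝ) * x ^ ((15 : ℝ) / 16) ≤ x / (1 + Real.log x) ^ 2 := by
    rw [le_div_iff₀ (by positivity)]
    calc (1 / 1089 : ℝ) * x ^ ((15 : ℝ) / 16) * (1 + Real.log x) ^ 2
        ≤ (1 / 1089 : ℝ) * x ^ ((15 : ℝ) / 16) * (1089 * x ^ ((1 : ℝ) / 16)) :=
          mul_le_mul_of_nonneg_left hl2 (by positivity)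
      _ = x ^ ((15 : ℝ) / 16) * x ^ ((1 : ℝ) / 16) := by ring
      _ = x := by
          rw [← Real.rpow_add hx0]
          norm_num
  have h4 : (1 / 1089 : ℝ) * M ^ 5 ≤ (x / (1 + Real.log x) ^ 2) ^ ((2 : ℝ) / 3) := by
    calc (1 / 1089 : ℝ) * M ^ 5 = (1 / 1089 : ℝ) * x ^ ((5 : ℝ) / 8) := by
          congr 1
          rw [hx, ← Real.rpow_natCast M 8, ← Real.rpow_mul hM0.le, ← Real.rpow_natCast M 5]
          norm_num
      _ ≤ (1 / 1089 : ℝ) ^ ((2 : ℝ) / 3) * x ^ ((5 : ℝ) / 8) := by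
          apply mul_le_mul_of_nonneg_right _ (by positivity)
          nth_rewrite 1 [← Real.rpow_one (1 / 1089 : ℝ)]
          exact Real.rpow_le_rpow_of_exponent_ge (by norm_num) (by norm_num) (by norm_num)
      _ = ((1 / 1089 : ℝ) * x ^ ((15 : ℝ) / 16)) ^ ((2 : ℝ) / 3) := by
          rw [Real.mul_rpow (by norm_num) (by positivity), ← Real.rpow_mul hx0.le]
          norm_num
      _ ≤ _ := Real.rpow_le_rpow (by positivity) h3 (by norm_num)
  have h5 : (1 / 87120 : ℝ) * M ^ 5 ≤ K * M ^ 4 := by linarith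
  have h6 : M ^ 4 * M ≤ M ^ 4 * (87120 * K) := by linarith [show M ^ 5 = M ^ 4 * M by ring]
  have h7 : M ≤ 87120 * K := le_of_mul_le_mul_left h6 (by positivity)
  have := le_abs_self K
  linarith

/-- `N(x)` is at least a constant times `(x / (1 + log x)^2)^(2/3)` for all `x ≥ 1`; in particular
there is no constant `K` with `N(x) ≤ K √x` for all `x ≥ 1`. -/
theorem result :
    (∃ c : ℝ, 0 < c ∧ ∀ x : ℝ, 1 ≤ x →
      c * (x / (1 + Real.log x) ^ 2) ^ ((2 : ℝ) / 3) ≤ N x) ∧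
    ¬ ∃ K : ℝ, ∀ x : ℝ, 1 ≤ x → (N x : ℝ) ≤ K * Real.sqrt x :=
  ⟨⟨1 / 80, by norm_num, fun _ hx => lower hx⟩, not_sqrt⟩

end Pool.Agent.Results.MP_6d8139_co.BeatsSquareRoot
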